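import Pool.Agent.K6.H99.EH.Main
import Pool.Agent.K6.H99.FS.CurveMain

/-!
# The conjectures of Tate, Beilinson and Parshin for products with curves: the theorems
-/

set_option autoImplicit false
set_option linter.unusedSectionVars false

open CategoryTheory AlgebraicGeometry

noncomputable section

namespace Pool.Agent.K6.H99.EH

open Module Polynomial Pool.Agent.H914 Pool.Agent.H914.VarClass Pool.Agent.H914.VarClass.Obj
  Pool.Agent.W492.BB Pool.Agent.W495.FM Pool.Agent.K6.H99.FS Pool.Agent.K6.H99.EC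
  Pool.Agent.K6.H99.AC Pool.Agent.W484.HS
open Pool.Agent.W484.CK (isStandard_bridge isFrobenius_bridge isAbelian_bridge nilpotence_bridge
  IsStandard)

variable {Ω : Type} [Field Ω] [IsAlgClosed Ω] [CharZero Ω]

theorem charZero_of_equiv {K : Type} [Field K] (ι : K ≃+* Ω) : CharZero K :=
  charZero_of_injective_ringHom (f := (ι.symm : Ω →+* K)) ι.symm.injective

/-- The general theorem. -/
theorem tb_of_pairs {q n : ℕ} (hq1 : 1 < q) {I : Type} {f : I → ℤ[X]}
    (hfm : ∀ i, (f i).Monic) {V : Type} {E : Homology Ω V} (hE : IsHomology E)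
    (hpair : ∀ (K : Type) [Field K] [CharZero K], ∀ m, n ∣ m → 0 < m →
      ExactPairK (fun z : {z : K // ∃ i, aeval z (f i) = 0} => (z : K) ^ m) ((q : K) ^ m) 1)
    (hodd : ∀ (K : Type) [Field K] [CharZero K], ∀ m, n ∣ m → 0 < m → ∀ χ : ℤ[X], χ.Monic →
      (∀ ρ : ℂ, aeval ρ χ = 0 → ‖ρ‖ ^ 2 = (q : ℝ) ^ m) → ∀ ρ : K, aeval ρ χ = 0 →
        OddPairK (fun z : {z : K // ∃ i, aeval z (f i) = 0} => (z : K) ^ m) ((q : K) ^ m) ρ)
    {X : V} (h : IsProduct E q n f X) : TB E X := by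
  obtain ⟨hn, d, T, ι, A, Y, πA, πY, hd, hS, hA, hY, htate, hF, hnil, hrep⟩ := h
  have _ : CharZero T.K := charZero_of_equiv ι
  have _ : IsAlgClosed T.K := IsAlgClosed.of_ringEquiv Ω T.K ι.symm
  have hm : 0 < n * d := Nat.mul_pos hn hd
  obtain ⟨χ, hχ, hχn, hY1⟩ := hY.weil
  obtain ⟨r, b, β, hb1, hb2, hb3⟩ := exists_basis_curve f hfm hq1 (n * d) hm hχ
    (hpair T.K _ (dvd_mul_right n d) hm)
    (hodd T.K _ (dvd_mul_right n d) hm χ hχ fun ρ hρ => by
      have := hχn ρ hρ; push_cast at this; exact this)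
    (isStandard_bridge hS)
    (isAbelian_bridge hA) hY.dim (isFrobenius_bridge hY.frobenius)
    (fun c hc => hY1 c hc) (fun c hc => hY.top c hc) (fun c hc h => htate c hc h)
  exact tb_of_basis hS (isFrobenius_bridge hF) (Nat.one_lt_pow hm.ne' hq1)
    (nilpotence_bridge hnil) b β hb1 hb2 hb3 ι hE hd hrep

/-- Products of elliptic curves and any curve. -/
theorem tb_elliptic {q : ℕ} (hqpp : IsPrimePow q) {n : ℕ} (hn24 : 24 ∣ n)
    {V : Type} {E : Homology Ω V} (hE : IsHomology E) {X : V}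
    (h : IsProduct E q n (ellipticPoly q) X) : TB E X :=
  tb_of_pairs hqpp.one_lt (ellipticPoly_monic q) hE
    (fun _ _ _ m hm hm0 => exactPair_field hqpp m hm0 (hn24.trans hm))
    (fun _ _ _ m hm hm0 χ hχ hχn ρ hρ =>
      Pool.Agent.K6.H99.EC.oddPair_field hqpp m hm0 (hn24.trans hm) χ hχ hχn ρ hρ) h

omit [IsAlgClosed Ω] in
/-- The class generated by a class for which the conjecture is known. -/
theorem class_of_tb {V : Type} {E : Homology Ω V}
    (hE : IsHomology E) (hW : HasWeights E) {S : V → Prop} (hS : ∀ X, S X → TB E X) :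
    (∀ X : V, Spread E (Generated E S) X → ∀ i : ℤ, IsOnto E X i) ∧
      ∀ X : V, Generated E S X → TB E X ∧ (∀ i : ℤ, IsIso E X i) ∧
        ∀ (Z U : V) (d : ℤ), IsTriple E Z X U → HasDimLE E Z d → ∀ i : ℤ, d ≤ i → IsIso E U i := by
  refine ⟨fun X hX i => onto_spread hE hW (fun X hX i => ((tb_generated hE hS hX).iso hE i).1) hX i,
    fun X hX => ⟨tb_generated hE hS hX, fun i => (tb_generated hE hS hX).iso hE i,
      fun Z U d h hZ i hi => ?_⟩⟩
  refine iso_opened hE hW h ?_ ((tb_generated hE hS hX).iso hE i)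
  rcases hi.eq_or_lt with rfl | hlt
  · exact hZ.2
  · have h0 : ∀ e : E.E Z (2 * i) i, e = 0 := hZ.1 (2 * i) i (by omega)
    refine ⟨fun e _ => ?_, fun e _ => ?_⟩
    · rw [h0 e]
      exact Submodule.zero_mem _
    · rw [h0 e]
      exact h0 _



end Pool.Agent.K6.H99.EH
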