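import Pool.Agent.K6.H99.EH.FFDefs
import Pool.Agent.K6.H99.EH.Final

/-!
# The Tate conjecture for function fields
-/

set_option autoImplicit false

namespace Pool.Agent.K6.H99.EH.FF

open Module Pool.Agent.W495.TA Pool.Agent.W495.FM

variable {Ω : Type} [Field Ω] {V : Type} {T : Homology Ω V} {X : V}

theorem g_zero {A B : V} {i j i' j' : ℤ} (h : Hom T A i j B i' j') : h.g 0 = 0 := by
  obtain ⟨φ, hφ⟩ := h.lin
  rw [hφ, map_zero]

theorem g_add {A B : V} {i j i' j' : ℤ} (h : Hom T A i j B i' j') (x y : T.E A i j) :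
    h.g (x + y) = h.g x + h.g y := by
  obtain ⟨φ, hφ⟩ := h.lin
  rw [hφ, hφ, hφ, map_add]

theorem g_smul {A B : V} {i j i' j' : ℤ} (h : Hom T A i j B i' j') (c : Ω) (x : T.E A i j) :
    h.g (c • x) = c • h.g x := by
  obtain ⟨φ, hφ⟩ := h.lin
  rw [hφ, hφ, map_smul]

theorem reg_zero (hT : IsHomology T) (A : V) (i j : ℤ) : T.reg A i j 0 = 0 := by
  have h := hT.add A i j 0 0
  rw [add_zero] at h
  exact left_eq_add.1 h

/-- A combination of motivic classes vanishes at the generic point if the motivic classes do. -/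
theorem zero_of_motivic (hT : IsHomology T) (P : Opens T X) {n j : ℤ}
    (hM : MotivicVanishes P n j) {b : P.O} {y : T.E (P.U b) n j}
    (hy : y ∈ Submodule.span Ω (Set.range (T.reg (P.U b) n j))) : ZeroAtGenericPoint P b y := by
  induction hy using Submodule.span_induction with
  | mem y hy =>
    obtain ⟨m, rfl⟩ := hy
    obtain ⟨c, h, h1⟩ := hM b m
    refine ⟨c, h, ?_⟩
    rw [← (P.res h n j).reg, h1, reg_zero hT]
  | zero => exact ⟨b, P.refl b, g_zero _⟩
  | add x y _ _ hx hy =>
    obtain ⟨c, h, h1⟩ := hx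
    obtain ⟨c', h', h1'⟩ := hy
    obtain ⟨d, hc, hc'⟩ := P.directed c c'
    refine ⟨d, P.trans h hc, ?_⟩
    rw [g_add, P.comp h hc _ n j x, h1, g_zero, P.comp h' hc' _ n j y, h1', g_zero, add_zero]
  | smul c x _ hx =>
    obtain ⟨d, h, h1⟩ := hx
    exact ⟨d, h, by rw [g_smul, h1, smul_zero]⟩

/-- The Tate conjecture for the function field of a variety all whose open subschemes satisfy the
Tate conjecture. -/
theorem tate_functionField (hT : IsHomology T) (hW : HasWeights T) (P : Opens T X)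
    (h : ∀ a i, IsOnto T (P.U a) i) : TateFunctionField P := by
  intro n j hnj a x hx
  obtain ⟨b, hab, h1⟩ := hx
  rcases lt_or_eq_of_le hnj with h2 | rfl
  · have h3 := hW.weights _ n j h2 _ h1
    exact ⟨⟨b, hab, by rw [h3]; exact Submodule.zero_mem _⟩, fun _ => ⟨b, hab, h3⟩⟩
  · have h3 := (h b j).1 _ h1
    refine ⟨⟨b, hab, h3⟩, fun hM => ?_⟩
    obtain ⟨c, hbc, h4⟩ := zero_of_motivic hT P hM h3
    exact ⟨c, P.trans hab hbc, by rw [P.comp hab hbc _ _ j x, h4]⟩

/-- The varieties dominated by a product of elliptic curves and of an arbitrary curve. -/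
theorem tate_elliptic {q : ℕ} (hq : IsPrimePow q) {n : ℕ} (hn : 24 ∣ n) [IsAlgClosed Ω]
    [CharZero Ω] (hE : IsHomology T) (hW : HasWeights T)
    (hX : Spread T (Generated T (IsProduct T q n (Pool.Agent.K6.H99.EC.ellipticPoly q))) X)
    (P : Opens T X) : TateFunctionField P :=
  tate_functionField hE hW P fun a i => (class_of_tb hE hW fun _ h => tb_elliptic hq hn hE h).1 _
    (Spread.opened _ X _ (P.triple a) hX) i

end Pool.Agent.K6.H99.EH.FF
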