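import Pool.Agent.K6.H99.FS.Curve
import Pool.Agent.W495.FM.Dim

/-!
# Homology of products of an abelian variety and a curve: definitions
-/

set_option autoImplicit false

open CategoryTheory AlgebraicGeometry

noncomputable section

namespace Pool.Agent.K6.H99.EH

open Polynomial Pool.Agent.H914 Pool.Agent.H914.VarClass Pool.Agent.H914.VarClass.Obj
  Pool.Agent.W492.BB Pool.Agent.W495.FM Pool.Agent.K6.H99.FS
open Pool.Agent.W484.CK (IsAbelian IsFrobenius IsStandard Nilpotence compose diagonal times)

variable {T : Theory}

/-- The correspondences of degree zero of the smooth projective variety `W` act on the vector space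
`N`, such that the Frobenius endomorphism `π` acts as multiplication by `μ`, and the products `y × z` of
cycles act as zero. -/
structure Acts {W : T.Var} (π : W ⟶ W) (μ : ℚ) {N : Type} [AddCommGroup N] [Module ℚ N]
    (act : T.CH (T.prod W W) → N → N) : Prop where
  add_left : ∀ Γ Δ x, act (Γ + Δ) x = act Γ x + act Δ x
  add_right : ∀ Γ x y, act Γ (x + y) = act Γ x + act Γ y
  comp : ∀ Γ Δ, T.Codim (T.dim W) Γ → T.Codim (T.dim W) Δ → ∀ x,
    act (compose T.C Γ Δ) x = act Δ (act Γ x)
  diag : ∀ x, act (diagonal T.C W) x = x
  frob : ∀ x, act (T.C.down (Obj.lift π (𝟙 W)) 1) x = μ • x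
  prod : ∀ y z x, act (times T.C y z) x = 0

/-- The map `β` identifies the group `H_(2g-n)(X, ℚ_ℓ(g-c))` (with coefficients extended to `Ω`),
for the scheme `X` over `k`, with the space of the sequences `v` of elements of `H^n(W)` with
`v (i + d) = F (v i)`. Here `X` is the smooth projective variety `W` of dimension `g` over the extension
`k'` of `k` of degree `d`, regarded as a scheme over `k`, `F = Q ^ (-c) π^*` is the Frobenius of `k'`, a
field with `Q` elements, on `H^n(W, ℚ_ℓ(c))`, and the Frobenius of `k` is the shift of the sequences.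
(This is the induced representation; for `d = 1` a sequence is determined by its element
`v 0`, and the Frobenius acts on it as `F`.) The field of coefficients of `W` is identified with `Ω` by
the isomorphism `ι`. -/
structure IsCohIso {Ω : Type} [Field Ω] (ι : T.K ≃+* Ω) {V : Type} (E : Homology Ω V) (X : V)
    (d : ℕ) {W : T.Var} (π : W ⟶ W) (Q : ℕ) (n c : ℤ)
    (β : E.E X (2 * T.dim W - n) (T.dim W - c) → ℤ → T.Coh W) : Prop where
  add : ∀ x y i, β (x + y) i = β x i + β y i
  smul : ∀ (a : T.K) x i, β (ι a • x) i = a • β x i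
  inj : Function.Injective β
  range : ∀ v : ℤ → T.Coh W, (∀ i, T.Degree n (v i) ∧ v (i + d) = ((Q : T.K) ^ c)⁻¹ • T.H.up π (v i)) ↔
    v ∈ Set.range β
  frob : ∀ e i, β (E.frob X _ _ e) i = β e (i + 1)

/-- The homology groups of the scheme `X` over the field `k` are those of the smooth projective
variety `W` of dimension `g` over the extension of `k` of degree `d`, a field with `Q` elements,
regarded as a scheme over `k` (if `d = 1` then `X` is `W`): `H_(2g-n)(X, ℚ_ℓ(g-c))` is the
representation induced by `H^n(W, ℚ_ℓ(c))`, and `H_(2g-n)(X, ℚ(g-c)) = H^n(W, ℚ(c))`. This is the group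
`CH^c(W)` for `n = 2c`, and then the regulator is given by the cycle class map. For `n ≠ 2c` it is the
part `K_(2c-n)(W)^(c)` of a rational algebraic `K`-group (or zero), on which correspondences act,
the Frobenius endomorphism `π` of `W` as multiplication by `Q ^ c` (Soule), and products of cycles
as zero, as they act through the groups `K_m ⊗ ℚ = 0`, `m > 0`, of a finite field (Quillen). -/
structure Represents {Ω : Type} [Field Ω] (ι : T.K ≃+* Ω) {V : Type} (E : Homology Ω V) (X : V)
    (d : ℕ) {W : T.Var} (π : W ⟶ W) (Q : ℕ) : Prop where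
  motivic : ∀ n c : ℤ, n ≠ 2 * c →
    ∃ act : T.CH (T.prod W W) → E.M X (2 * T.dim W - n) (T.dim W - c) →
      E.M X (2 * T.dim W - n) (T.dim W - c), Acts π ((Q : ℚ) ^ c) act
  coh : ∀ n c : ℤ, ∃ β, IsCohIso ι E X d π Q n c β
  chow : ∀ c : ℤ, ∃ (f : E.M X (2 * T.dim W - 2 * c) (T.dim W - c) → T.CH W)
    (β : E.E X (2 * T.dim W - 2 * c) (T.dim W - c) → ℤ → T.Coh W),
      IsAdd f ∧ Function.Injective f ∧ (∀ z : T.CH W, T.Codim c z ↔ z ∈ Set.range f) ∧
      IsCohIso ι E X d π Q (2 * c) c β ∧ ∀ x i, β (E.reg X _ _ x) i = T.cls (f x)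

/-- The homology groups of the scheme `X` over the field `k` with `q ^ n` elements are those of a
product `A × Y` over an extension of `k` of some degree `d`, regarded as a scheme over `k`. Here `A`
is an abelian variety over this extension, isogenous to a product of powers of abelian varieties
coming from the field with `q` elements with characteristic polynomials of Frobenius `f i`, and
`Y` is any curve. Moreover: the theorem of Tate for the divisors on `A × Y`, the action of Frobenius
on the Chow groups of `A × Y` (Soule), and the nilpotence of homologically trivial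
self-correspondences of degree zero of `A × Y` (Kimura). -/
def IsProduct {Ω : Type} [Field Ω] {V : Type} (E : Homology Ω V) (q n : ℕ) {I : Type}
    (f : I → ℤ[X]) (X : V) : Prop :=
  0 < n ∧ ∃ (d : ℕ) (T : Theory) (ι : T.K ≃+* Ω) (A Y : T.Var) (πA : A ⟶ A) (πY : Y ⟶ Y),
    0 < d ∧ IsStandard T.H ∧ IsAbelian T.H πA q (n * d) f ∧ IsCurve T (q ^ (n * d)) πY ∧
    IsTate T (q ^ (n * d)) (prodMap πA πY) ∧ IsFrobenius T.C (prodMap πA πY) (q ^ (n * d)) ∧
    Nilpotence T.H (T.prod A Y) ∧
    Represents ι E X d (W := T.prod A Y) (prodMap πA πY) (q ^ (n * d))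

end Pool.Agent.K6.H99.EH
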