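import Pool.Agent.K6.H99.AC.Kahn

/-!
# The argument of Soule, Geisser and Kahn for theories with an action of correspondences
-/

set_option autoImplicit false
set_option linter.unusedSectionVars false

open CategoryTheory AlgebraicGeometry

universe u v w

namespace Pool.Agent.K6.H99.EH

open Module Polynomial Pool.Agent.H914 Pool.Agent.H914.VarClass Pool.Agent.H914.VarClass.Obj
  Pool.Agent.W492.BB Pool.Agent.W550.Corr Pool.Agent.W484.TB Pool.Agent.W484.CH
  Pool.Agent.K6.H99.AC

variable {k : Type u} [Field k] {𝒱 : VarClass k} {C : TheoryData.{u, v, 0} 𝒱 ℚ} {K : Type w}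
  [Field K] [CharZero K] [IsAlgClosed K] {H : WeilTheoryData.{u, v, w} C K} [hC : IsChow C]
  [hH : IsWeil H] {X : 𝒱.Obj}

/-- For each integer `i` there are a polynomial `P` in the Frobenius endomorphism, with
`P (Q ^ i) ≠ 0`, and a sum `p` of products of cycles, such that `P (π) (1 - p)` is nilpotent. -/
theorem exists_nilpotent (hS : IsStandard H) {π : X ⟶ X} {Q : ℕ} (hπ : IsFrobenius C π Q)
    (hQ : 1 < Q) (hnil : Nilpotence H X) {r : ℕ} (b : Basis (Fin r) K (H.A X)) (α : Fin r → K)
    (hb : ∀ t, H.pull π (b t) = α t • b t) (hα : ∀ t, IsIntegral ℚ (α t))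
    (h1 : ∀ t (c : ℤ), α t = (Q : K) ^ c → ∃ k : ℕ, α t = (Q : K) ^ k ∧ b t ∈ NK H X k) (i : ℤ) :
    ∃ (P : ℚ[X]) (m : ℕ) (D E : Fin m → C.A X) (n : ℕ), P.eval ((Q : ℚ) ^ i) ≠ 0 ∧
      C.Deg X.dim (∑ t, C.pull (fst X X) (E t) * C.pull (snd X X) (D t)) ∧
      powC C (C.comp (polyC π P) (dg C X -
        ∑ t, C.pull (fst X X) (E t) * C.pull (snd X X) (D t))) n = 0 := by
  classical
  have hfin := hS.finite X
  have hQ0 : (Q : K) ≠ 0 := by exact_mod_cast (by omega : Q ≠ 0)
  -- the polynomial
  have hcomp : ∀ (μ : K) (m : ℕ) (f : Fin r → K),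
      op (frob H π) μ m (∑ t, f t • b t) = ∑ t, ((α t - μ) ^ m * f t) • b t := by
    intro μ m
    induction m with
    | zero => intro f; simp [op]
    | succ m ih =>
      intro f
      unfold op at ih ⊢
      rw [pow_succ, Module.End.mul_apply]
      have h2 : (frob H π - μ • (1 : Module.End K (H.A X))) (∑ t, f t • b t) =
          ∑ t, ((α t - μ) * f t) • b t := by
        rw [map_sum]
        refine Finset.sum_congr rfl fun t _ => ?_
        rw [LinearMap.sub_apply, LinearMap.smul_apply, Module.End.one_apply, map_smul]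
        have h3 : frob H π (b t) = α t • b t := hb t
        rw [h3, smul_smul, smul_smul, ← sub_smul]
        congr 1
        ring
      rw [h2, ih]
      refine Finset.sum_congr rfl fun t _ => ?_
      congr 1
      ring
  obtain ⟨P, hP, m', hPm⟩ := exists_poly (frob H π) ((Q : ℚ) ^ i) (by
    intro μ v hv0 hv
    obtain ⟨t, ht⟩ : ∃ t, b.repr v t ≠ 0 := by
      by_contra hall
      push Not at hall
      apply hv0
      rw [← b.sum_repr v]
      exact Finset.sum_eq_zero fun t _ => by rw [hall t, zero_smul]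
    have h2 : op (frob H π) μ 1 (∑ t, b.repr v t • b t) = 0 := by
      rw [b.sum_repr, op, pow_one, LinearMap.sub_apply, LinearMap.smul_apply,
        Module.End.one_apply, hv, sub_self]
    rw [hcomp] at h2
    have h3 := Fintype.linearIndependent_iff.1 b.linearIndependent _ h2 t
    rw [pow_one] at h3
    have h4 := (mul_eq_zero.1 h3).resolve_right ht
    rw [← sub_eq_zero.1 h4]
    exact hα t)
  have hcoord : ∀ w t, b.repr (H.act (H.cl (polyC π P)) w) t ≠ 0 → α t = (Q : K) ^ i := by
    intro w t ht
    have h2 := hPm w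
    have h2' : op (frob H π) ((Q : K) ^ i) m' (H.act (H.cl (polyC π P)) w) = 0 := by
      rw [act_cl_polyC]
      push_cast at h2
      exact h2
    set v := H.act (H.cl (polyC π P)) w with hv
    rw [← b.sum_repr v, hcomp] at h2'
    have h4 := Fintype.linearIndependent_iff.1 b.linearIndependent _ h2' t
    exact sub_eq_zero.1 (eq_zero_of_pow_eq_zero ((mul_eq_zero.1 h4).resolve_right ht))
  have hdg : C.Deg X.dim (dg C X) := by
    have h1 := C.push_mem (Obj.lift (𝟙 X) (𝟙 X)) (C.one_mem X)
    have h2 : (0 : ℤ) + 1 * (((X.prod X).dim : ℤ) - X.dim) = X.dim := by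
      rw [Obj.dim_prod]
      push_cast
      ring
    rw [h2] at h1
    exact h1
  have hnilp : ∀ p : C.A (X.prod X), C.Deg X.dim p →
      (∀ w : H.A X, H.act (H.cl p) (H.act (H.cl (polyC π P)) w) = H.act (H.cl (polyC π P)) w) →
      ∃ n, powC C (C.comp (polyC π P) (dg C X - p)) n = 0 := by
    intro p hpd hkill
    exact hnil (C.comp (polyC π P) (dg C X - p))
      (comp_mem (polyC_mem π P) (Submodule.sub_mem _ hdg hpd)) (by
        intro w
        rw [act_cl_comp, map_sub, H.act_sub, act_cl_dg, hkill, sub_self])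
  by_cases hi : ∃ j : ℕ, i = j ∧ j ≤ X.dim
  · obtain ⟨j, rfl, hi⟩ := hi
    obtain ⟨deg, hdeg⟩ := exists_deg hS X X
    obtain ⟨m, D, E, hD, hE, hDE, hspan⟩ := exists_dual_one hS hπ hQ b α hb h1 X hi
    have hDg : ∀ t, D t ∈ C.gr X j := fun t => divProd_mem (hD t)
    have hmem : ∀ t, ∀ y ∈ C.gr X j, E t * y ∈ C.gr X X.dim := by
      intro t y hy
      have h2 := C.mul_mem (hE t) hy
      rwa [show ((X.dim - j : ℕ) : ℤ) + j = X.dim by omega] at h2
    have hone : (1 : C.A X) ≠ 0 := by
      intro h0
      have := hS.nontrivial X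
      have h2 := congrArg (H.cl (X := X)) h0
      rw [map_one, map_zero] at h2
      exact one_ne_zero h2
    set p : C.A (X.prod X) := ∑ t, C.pull (fst X X) (E t) * C.pull (snd X X) (D t) with hp
    have hpd : C.Deg X.dim p := by
      refine Submodule.sum_mem _ fun t _ => ?_
      have h2 := C.mul_mem (C.pull_mem (fst X X) (hE t)) (C.pull_mem (snd X X) (hDg t))
      rwa [show ((X.dim - j : ℕ) : ℤ) + j = X.dim by omega] at h2
    have hact : ∀ y ∈ C.gr X j, C.act p y = ∑ t, deg (E t * y) • D t := by
      intro y hy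
      rw [hp, C.act_apply, Finset.sum_mul, map_sum]
      refine Finset.sum_congr rfl fun t _ => ?_
      have e1 : C.pull (fst X X) (E t) * C.pull (snd X X) (D t) * C.pull (fst X X) y =
          C.pull (fst X X) (E t * y) * C.pull (snd X X) (D t) := by
        rw [map_mul, mul_assoc, chow_mul_comm (C.pull (snd X X) (D t)), ← mul_assoc]
      rw [e1, C.proj_right, hdeg _ (hmem t y hy), smul_mul_assoc, one_mul]
    have hactD : ∀ u, C.act p (D u) = D u := by
      intro u
      rw [hact _ (hDg u), Finset.sum_eq_single u]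
      · have h2 := hDE u u
        rw [if_pos rfl, chow_mul_comm (D u), hdeg _ (hmem u _ (hDg u))] at h2
        have h3 : deg (E u * D u) = 1 := by
          by_contra h4
          have h5 : (deg (E u * D u) - 1) • (1 : C.A X) = 0 := by
            rw [sub_smul, h2, one_smul, sub_self]
          rcases smul_eq_zero.1 h5 with h6 | h6
          · exact h4 (sub_eq_zero.1 h6)
          · exact hone h6
        rw [h3, one_smul]
      · intro t _ ht
        have h2 := hDE u t
        rw [if_neg (Ne.symm ht), chow_mul_comm (D u), hdeg _ (hmem t _ (hDg u))] at h2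
        rw [(smul_eq_zero.1 h2).resolve_right hone, zero_smul]
      · intro h
        exact absurd (Finset.mem_univ u) h
    obtain ⟨n, hn⟩ := hnilp p hpd (by
      intro w
      set v := H.act (H.cl (polyC π P)) w with hv
      have h4 : v ∈ NK H X j := by
        rw [← b.sum_repr v]
        refine Submodule.sum_mem _ fun t _ => ?_
        by_cases ht : b.repr v t = 0
        · rw [ht, zero_smul]
          exact Submodule.zero_mem _
        · refine Submodule.smul_mem _ _ ?_
          have h5 := hcoord w t ht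
          obtain ⟨l, hl, hbl⟩ := h1 t j h5
          have h6 : l = j := by
            rw [h5, zpow_natCast] at hl
            have h7 : ((Q ^ l : ℕ) : K) = ((Q ^ j : ℕ) : K) := by
              push_cast
              exact hl.symm
            exact Nat.pow_right_injective hQ (Nat.cast_injective h7)
          rwa [h6] at hbl
      have h5 : NK H X j ≤ LinearMap.eqLocus (H.actL (H.cl p)) LinearMap.id := by
        refine hspan.trans (Submodule.span_le.2 ?_)
        rintro _ ⟨u, rfl⟩
        rw [SetLike.mem_coe, LinearMap.mem_eqLocus, TheoryData.actL_apply, LinearMap.id_apply]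
        rw [← cl_act, hactD]
      exact h5 h4)
    exact ⟨P, m, D, E, n, hP, hpd, hn⟩
  · -- there is no such eigenvalue
    have hno : ∀ t, α t ≠ (Q : K) ^ i := by
      intro t ht
      obtain ⟨l, hl, hbl⟩ := h1 t i ht
      have h2 : i = (l : ℤ) := by
        rw [ht, ← zpow_natCast] at hl
        have h3 : ((Q : ℚ)) ^ i = (Q : ℚ) ^ (l : ℤ) := by
          apply (algebraMap ℚ K).injective
          rw [map_zpow₀, map_zpow₀, map_natCast]
          exact hl
        exact zpow_right_injective₀ (by positivity) (by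
          have : (1 : ℚ) < Q := by exact_mod_cast hQ
          exact this.ne') h3
      have h3 : ¬ l ≤ X.dim := fun h => hi ⟨l, h2, h⟩
      have h4 : b t ∈ H.gr X (2 * l) := by
        have h5 : NK H X l ≤ H.gr X (2 * l) := by
          refine Submodule.span_le.2 ?_
          rintro _ ⟨D, hD, rfl⟩
          exact H.cl_mem (divProd_mem hD)
        exact h5 hbl
      rw [hS.coh_top _ _ (by omega), Submodule.mem_bot] at h4
      exact b.ne_zero t h4
    obtain ⟨n, hn⟩ := hnilp 0 (Submodule.zero_mem _) (by
      intro w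
      have h2 : H.act (H.cl (polyC π P)) w = 0 := by
        rw [← b.sum_repr (H.act (H.cl (polyC π P)) w)]
        refine Finset.sum_eq_zero fun t _ => ?_
        by_cases ht : b.repr (H.act (H.cl (polyC π P)) w) t = 0
        · rw [ht, zero_smul]
        · exact absurd (hcoord w t ht) (hno t)
      rw [h2, TheoryData.act_map_zero])
    refine ⟨P, 0, Fin.elim0, Fin.elim0, n, hP, ?_, ?_⟩
    · rw [Finset.univ_eq_empty, Finset.sum_empty]
      exact Submodule.zero_mem _
    · rw [Finset.univ_eq_empty, Finset.sum_empty]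
      exact hn

/-- A vector space on which the correspondences of degree zero act, such that products of cycles and
the Frobenius endomorphism act like on the weight parts of the algebraic `K`-groups, vanishes. -/
theorem op_trivial (hS : IsStandard H) {π : X ⟶ X} {Q : ℕ} (hπ : IsFrobenius C π Q)
    (hQ : 1 < Q) (hnil : Nilpotence H X) {r : ℕ} (b : Basis (Fin r) K (H.A X)) (α : Fin r → K)
    (hb : ∀ t, H.pull π (b t) = α t • b t) (hα : ∀ t, IsIntegral ℚ (α t))
    (h1 : ∀ t (c : ℤ), α t = (Q : K) ^ c → ∃ k : ℕ, α t = (Q : K) ^ k ∧ b t ∈ NK H X k)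
    {N : Type*} [AddCommGroup N] [Module ℚ N] (act : C.A (X.prod X) →ₗ[ℚ] N →ₗ[ℚ] N)
    (hcomp : ∀ Γ Δ, C.Deg X.dim Γ → C.Deg X.dim Δ → ∀ x, act (C.comp Γ Δ) x = act Δ (act Γ x))
    (hone : ∀ x, act (dg C X) x = x) (c : ℤ)
    (hfrob : ∀ x, act (C.cograph π) x = (Q : ℚ) ^ c • x)
    (hprod : ∀ y z x, act (C.pull (fst X X) y * C.pull (snd X X) z) x = 0) (x : N) : x = 0 := by
  obtain ⟨P, l, D, E, n, hP, hpd, hn⟩ := exists_nilpotent hS hπ hQ hnil b α hb hα h1 c
  have hdg : C.Deg X.dim (dg C X) := by
    have h1 := C.push_mem (Obj.lift (𝟙 X) (𝟙 X)) (C.one_mem X)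
    have h2 : (0 : ℤ) + 1 * (((X.prod X).dim : ℤ) - X.dim) = X.dim := by
      rw [Obj.dim_prod]
      push_cast
      ring
    rw [h2] at h1
    exact h1
  have hiter : ∀ (l : ℕ) (x : N), act (C.cograph (iter π l)) x = ((Q : ℚ) ^ c) ^ l • x := by
    intro l
    induction l with
    | zero =>
      intro x
      rw [pow_zero, one_smul]
      exact hone x
    | succ l ih =>
      intro x
      rw [iter, ← cograph_comp, hcomp _ _ (cograph_mem _) (cograph_mem _), hfrob, map_smul, ih,
        smul_smul, pow_succ']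
  have hpoly : ∀ x : N, act (polyC π P) x = P.eval ((Q : ℚ) ^ c) • x := by
    intro x
    rw [polyC, map_sum, LinearMap.sum_apply, Polynomial.eval_eq_sum, Polynomial.sum,
      Finset.sum_smul]
    refine Finset.sum_congr rfl fun l _ => ?_
    rw [map_smul, LinearMap.smul_apply, hiter, smul_smul]
  have hp : ∀ x, act (∑ t, C.pull (fst X X) (E t) * C.pull (snd X X) (D t)) x = 0 := by
    intro x
    rw [map_sum, LinearMap.sum_apply]
    exact Finset.sum_eq_zero fun t _ => hprod _ _ _
  have hmem : C.Deg X.dim (C.comp (polyC π P) (dg C X -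
      ∑ t, C.pull (fst X X) (E t) * C.pull (snd X X) (D t))) :=
    comp_mem (polyC_mem π P) (Submodule.sub_mem _ hdg hpd)
  have hpowmem : ∀ n : ℕ, C.Deg X.dim (powC C (C.comp (polyC π P) (dg C X -
      ∑ t, C.pull (fst X X) (E t) * C.pull (snd X X) (D t))) n) := by
    intro n
    induction n with
    | zero => exact hdg
    | succ n ih => exact comp_mem ih hmem
  have hΘ : ∀ x, act (C.comp (polyC π P) (dg C X -
      ∑ t, C.pull (fst X X) (E t) * C.pull (snd X X) (D t))) x = P.eval ((Q : ℚ) ^ c) • x := by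
    intro x
    rw [hcomp _ _ (polyC_mem π P) (Submodule.sub_mem _ hdg hpd), hpoly, map_smul, map_sub,
      LinearMap.sub_apply, hp, sub_zero, hone]
  have hpow : ∀ n : ℕ, act (powC C (C.comp (polyC π P) (dg C X -
      ∑ t, C.pull (fst X X) (E t) * C.pull (snd X X) (D t))) n) x =
      P.eval ((Q : ℚ) ^ c) ^ n • x := by
    intro n
    induction n with
    | zero =>
      rw [pow_zero, one_smul]
      exact hone x
    | succ n ih => rw [powC, hcomp _ _ (hpowmem n) hmem, ih, map_smul, hΘ, smul_smul, pow_succ]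
  have h2 := hpow n
  rw [hn, map_zero, LinearMap.zero_apply] at h2
  exact (smul_eq_zero.1 h2.symm).resolve_left (pow_ne_zero _ hP)

end Pool.Agent.K6.H99.EH
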