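import Pool.Agent.K6.H99.EH.Defs
import Pool.Agent.K6.H99.EH.Kahn
import Pool.Agent.K6.H99.EH.Basis
import Pool.Agent.W484.CK.Main
import Pool.Agent.W495.FM.DimMain

/-!
# The conjectures of Tate, Beilinson and Parshin for products of an abelian variety and a curve
-/

set_option autoImplicit false
set_option linter.unusedSectionVars false

open CategoryTheory AlgebraicGeometry

noncomputable section

namespace Pool.Agent.K6.H99.EH

open Module Polynomial Pool.Agent.H914 Pool.Agent.H914.VarClass Pool.Agent.H914.VarClass.Obj
  Pool.Agent.W492.BB Pool.Agent.W495.FM Pool.Agent.K6.H99.FS Pool.Agent.W550.Corr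
  Pool.Agent.W484.TB Pool.Agent.K6.H99.AC Pool.Agent.W484.HS
open Pool.Agent.W484.CK (isStandard_bridge isFrobenius_bridge isAbelian_bridge nilpotence_bridge)
open Pool.Agent.W484.CH (NK DivProd divProd_mem exists_dual_one exists_deg cl_smul)

section diag

variable {K : Type*} [Field K] {M : Type*} [AddCommGroup M] [Module K M] {r : ℕ}
  (b : Basis (Fin r) K M) (φ : M →ₗ[K] M) (α : Fin r → K) (hb : ∀ t, φ (b t) = α t • b t)

include hb

theorem repr_map (v : M) (t : Fin r) : b.repr (φ v) t = α t * b.repr v t := by
  have h1 : φ v = ∑ u, (α u * b.repr v u) • b u := by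
    conv_lhs => rw [← b.sum_repr v]
    rw [map_sum]
    refine Finset.sum_congr rfl fun u _ => ?_
    rw [map_smul, hb, smul_smul, mul_comm]
  rw [h1, b.repr_sum_self]

theorem diag {μ : K} {v : M} (h : φ (φ v - μ • v) = μ • (φ v - μ • v)) : φ v = μ • v := by
  apply b.repr.injective
  ext t
  have h1 := congrArg (fun w => b.repr w t) h
  beta_reduce at h1
  rw [repr_map b φ α hb, map_smul, map_sub, Finsupp.smul_apply, Finsupp.sub_apply,
    repr_map b φ α hb, map_smul, Finsupp.smul_apply] at h1
  rw [repr_map b φ α hb, map_smul, Finsupp.smul_apply]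
  simp only [smul_eq_mul] at h1 ⊢
  have h2 : (α t - μ) * ((α t - μ) * b.repr v t) = 0 := by linear_combination h1
  rcases mul_eq_zero.1 h2 with h3 | h3
  · rw [sub_eq_zero.1 h3]
  · linear_combination h3

theorem coord {μ : K} {v : M} (h : φ v = μ • v) (t : Fin r) (ht : b.repr v t ≠ 0) : α t = μ := by
  have h1 := congrArg (fun w => b.repr w t) h
  beta_reduce at h1
  rw [repr_map b φ α hb, map_smul, Finsupp.smul_apply, smul_eq_mul] at h1
  exact mul_right_cancel₀ ht h1

end diag

variable {T : Theory} [IsAlgClosed T.K] [CharZero T.K]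

/-- The regulators of `X`. -/
theorem tb_of_basis (hS' : Pool.Agent.W484.CK.IsStandard T.H) {W : T.Var} {π : W ⟶ W} {Q : ℕ}
    (hπ : Pool.Agent.W484.CH.IsFrobenius T.C π Q) (hQ : 1 < Q)
    (hnil : Pool.Agent.W484.CH.Nilpotence T.H W) {r : ℕ} (b : Basis (Fin r) T.K (T.H.A W))
    (α : Fin r → T.K) (hb : ∀ t, T.H.pull π (b t) = α t • b t) (hα : ∀ t, IsIntegral ℚ (α t))
    (h1 : ∀ t (c : ℤ), α t = (Q : T.K) ^ c →
      ∃ k : ℕ, α t = (Q : T.K) ^ k ∧ b t ∈ NK T.H W k)
    {Ω : Type} [Field Ω] [CharZero Ω] (ι : T.K ≃+* Ω) {V : Type} {E : Homology Ω V} (hE : IsHomology E) {X : V}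
    {d : ℕ} (hd : 0 < d) (hX : Represents ι E X d π Q) : TB E X := by
  classical
  have hS := isStandard_bridge hS'
  have hRat := ratEqHom_of_basis hS hπ hQ hnil b α hb hα h1
  have hint := IsWeil.isTheory (H := T.H) |>.isGradedRing.isInternal W
  have hQ0 : (Q : T.K) ≠ 0 := by exact_mod_cast (by omega : Q ≠ 0)
  have hφ : ∀ t, (T.H.pull π).toLinearMap (b t) = α t • b t := hb
  have hreg0 : ∀ i j, E.reg X i j 0 = 0 := fun i j => (hE.add X i j).map.map_zero
  have hfr0 : ∀ i j, E.frob X i j 0 = 0 := fun i j =>
    ((hE.lin X i j).map_apply 0).symm.trans (hE.lin X i j).map.map_zero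
  intro i j
  obtain ⟨n, rfl⟩ : ∃ n, i = 2 * (T.dim W : ℤ) - n := ⟨2 * T.dim W - i, by ring⟩
  obtain ⟨c, rfl⟩ : ∃ c, j = (T.dim W : ℤ) - c := ⟨T.dim W - j, by ring⟩
  have hQc : (Q : T.K) ^ c ≠ 0 := zpow_ne_zero _ hQ0
  have hd' : (d : T.K) ≠ 0 := by exact_mod_cast hd.ne'
  have hconst : ∀ (β : E.E X (2 * T.dim W - n) (T.dim W - c) → ℤ → T.Coh W),
      IsCohIso ι E X d π Q n c β → ∀ e, E.frob X _ _ e = e → ∀ i, β e i = β e 0 := by
    intro β hβ e he i
    have h2 : ∀ i, β e (i + 1) = β e i := fun i => by rw [← hβ.frob, he]
    induction i using Int.induction_on with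
    | zero => rfl
    | succ i ih => rw [h2, ih]
    | pred i ih => rw [← ih, ← h2 (-(i : ℤ) - 1), sub_add_cancel]
  -- semisimplicity
  have hss : ∀ e : E.E X (2 * T.dim W - n) (T.dim W - c),
      E.frob X _ _ (E.frob X _ _ e - e) = E.frob X _ _ e - e → E.frob X _ _ e = e := by
    intro e he
    obtain ⟨β, hβ⟩ := hX.coh n c
    have hβ0 : ∀ i, β 0 i = 0 := by
      intro i
      have h2 := hβ.add 0 0 i
      rw [add_zero] at h2
      exact left_eq_add.1 h2
    have hβs : ∀ x y i, β (x - y) i = β x i - β y i := by
      intro x y i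
      have h2 := hβ.add (x - y) y i
      rw [sub_add_cancel] at h2
      rw [h2, add_sub_cancel_right]
    -- the difference is constant
    set u := β e 1 - β e 0 with hu
    have h2 : ∀ i, β e (i + 1) - β e i = u := by
      intro i
      have h3 := hconst β hβ (E.frob X _ _ e - e) he i
      rw [hβs, hβs, hβ.frob, hβ.frob, zero_add] at h3
      exact h3
    have h3 : ∀ (m : ℕ) (i : ℤ), β e (i + m) = β e i + (m : T.K) • u := by
      intro m
      induction m with
      | zero => intro i; simp
      | succ m ih =>
        intro i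
        have h4 := h2 (i + m)
        rw [ih, sub_eq_iff_eq_add] at h4
        push_cast
        rw [← add_assoc, h4, add_smul, one_smul]
        abel
    have hr := (hβ.range (β e)).2 ⟨e, rfl⟩
    have h4 : ∀ i, T.H.pull π (β e i) = (Q : T.K) ^ c • (β e i + (d : T.K) • u) := by
      intro i
      rw [← h3 d i, (hr i).2, smul_smul, mul_inv_cancel₀ hQc, one_smul]
    have h5 : T.H.pull π u = (Q : T.K) ^ c • u := by
      rw [hu, map_sub, h4, h4, ← smul_sub, add_sub_add_right_eq_sub]
    have h6 : T.H.pull π (β e 0) - (Q : T.K) ^ c • β e 0 = (Q : T.K) ^ c • (d : T.K) • u := by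
      rw [h4, smul_add, add_sub_cancel_left]
    have h7 : (T.H.pull π).toLinearMap ((T.H.pull π).toLinearMap (β e 0) - (Q : T.K) ^ c • β e 0) =
        (Q : T.K) ^ c • ((T.H.pull π).toLinearMap (β e 0) - (Q : T.K) ^ c • β e 0) := by
      change T.H.pull π (T.H.pull π (β e 0) - (Q : T.K) ^ c • β e 0) =
        (Q : T.K) ^ c • (T.H.pull π (β e 0) - (Q : T.K) ^ c • β e 0)
      rw [h6, map_smul, map_smul, h5, smul_comm (d : T.K)]
    have h8 : T.H.pull π (β e 0) = (Q : T.K) ^ c • β e 0 := diag b _ α hφ h7
    have h9 : u = 0 := by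
      rw [h8, sub_self] at h6
      rcases smul_eq_zero.1 h6.symm with h10 | h10
      · exact absurd h10 hQc
      · rcases smul_eq_zero.1 h10 with h11 | h11
        · exact absurd h11 hd'
        · exact h11
    apply hβ.inj
    funext i
    rw [hβ.frob]
    have h10 := h2 i
    rw [h9] at h10
    exact sub_eq_zero.1 h10
  -- the invariant elements
  have hNK : ∀ v : T.H.A W, T.H.pull π v = (Q : T.K) ^ c • v → v ≠ 0 →
      ∃ l : ℕ, c = l ∧ v ∈ NK T.H W l := by
    intro v hv hv0
    have hl : ∀ t, b.repr v t ≠ 0 → ∃ l : ℕ, c = l ∧ b t ∈ NK T.H W l := by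
      intro t ht
      have h2 := coord b _ α hφ (v := v) (μ := (Q : T.K) ^ c) hv t ht
      obtain ⟨l, h3, h4⟩ := h1 t c h2
      refine ⟨l, ?_, h4⟩
      rw [h2, ← zpow_natCast] at h3
      have h5 : ((Q : ℚ)) ^ c = (Q : ℚ) ^ (l : ℤ) := by
        apply (algebraMap ℚ T.K).injective
        rw [map_zpow₀, map_zpow₀, map_natCast]
        exact h3
      exact zpow_right_injective₀ (by positivity) (by
        have : (1 : ℚ) < Q := by exact_mod_cast hQ
        exact this.ne') h5
    obtain ⟨t, ht⟩ : ∃ t, b.repr v t ≠ 0 := by
      by_contra hall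
      push Not at hall
      apply hv0
      rw [← b.sum_repr v]
      exact Finset.sum_eq_zero fun t _ => by rw [hall t, zero_smul]
    obtain ⟨l, hcl, -⟩ := hl t ht
    refine ⟨l, hcl, ?_⟩
    rw [← b.sum_repr v]
    refine Submodule.sum_mem _ fun u _ => ?_
    by_cases hu : b.repr v u = 0
    · rw [hu, zero_smul]
      exact Submodule.zero_mem _
    · obtain ⟨l', h2, h3⟩ := hl u hu
      obtain rfl : l' = l := by omega
      exact Submodule.smul_mem _ _ h3
  have hNKgr : ∀ l : ℕ, NK T.H W l ≤ T.H.gr W (2 * l) := by
    intro l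
    refine Submodule.span_le.2 ?_
    rintro _ ⟨D, hD, rfl⟩
    exact T.H.cl_mem (divProd_mem hD)
  have hinv : ∀ (β : E.E X (2 * T.dim W - n) (T.dim W - c) → ℤ → T.Coh W),
      IsCohIso ι E X d π Q n c β → ∀ e, E.frob X _ _ e = e → e ≠ 0 →
        ∃ l : ℕ, c = l ∧ n = 2 * c ∧ β e 0 ∈ NK T.H W l := by
    intro β hβ e he he0
    have hβ0 : ∀ i, β 0 i = 0 := by
      intro i
      have h2 := hβ.add 0 0 i
      rw [add_zero] at h2
      exact left_eq_add.1 h2
    have hc := hconst β hβ e he
    have hr := (hβ.range (β e)).2 ⟨e, rfl⟩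
    have h2 : T.H.pull π (β e 0) = (Q : T.K) ^ c • β e 0 := by
      have h3 := (hr 0).2
      rw [hc] at h3
      have h4 : (Q : T.K) ^ c • β e 0 = T.H.pull π (β e 0) := by
        conv_lhs => rw [h3]
        rw [smul_smul, mul_inv_cancel₀ hQc, one_smul]
      exact h4.symm
    have h3 : β e 0 ≠ 0 := by
      intro h4
      apply he0
      apply hβ.inj
      funext i
      rw [hc, h4, hβ0]
    obtain ⟨l, h4, h5⟩ := hNK _ h2 h3
    refine ⟨l, h4, ?_, h5⟩
    by_contra h6
    have h7 : β e 0 ∈ T.H.gr W n := (hr 0).1
    have h8 : β e 0 ∈ T.H.gr W (2 * l) := hNKgr l h5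
    have h9 : Disjoint (T.H.gr W n) (T.H.gr W (2 * l)) := by
      refine hint.submodule_iSupIndep.pairwiseDisjoint ?_
      rw [← h4]
      exact h6
    exact h3 (Submodule.disjoint_def.1 h9 _ h7 h8)
  by_cases hn : n = 2 * c
  · subst hn
    obtain ⟨f', β, hfa, hf, hfr, hβ1, hreg⟩ := hX.chow c
    have hβ0 : ∀ i, β 0 i = 0 := by
      intro i
      have h2 := hβ1.add 0 0 i
      rw [add_zero] at h2
      exact left_eq_add.1 h2
    have hβsum : ∀ (m : ℕ) (a : Fin m → T.K) (x : Fin m → E.E X (2 * T.dim W - 2 * c)
        (T.dim W - c)) (i : ℤ), β (∑ k, ι (a k) • x k) i = ∑ k, a k • β (x k) i := by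
      intro m a x i
      let φ : E.E X (2 * T.dim W - 2 * c) (T.dim W - c) →+ T.Coh W :=
        AddMonoidHom.mk' (fun e => β e i) (fun x y => hβ1.add x y i)
      change φ _ = ∑ k, a k • φ (x k)
      rw [map_sum]
      exact Finset.sum_congr rfl fun k _ => hβ1.smul (a k) (x k) i
    obtain ⟨f, hff⟩ : ∃ f : E.M X (2 * T.dim W - 2 * c) (T.dim W - c) →+ T.CH W, f' = f :=
      ⟨hfa.map, rfl⟩
    subst hff
    refine ⟨fun e => ⟨fun he => ?_, fun he => ?_⟩, fun s x hx => ?_, hss⟩
    · by_cases he0 : e = 0
      · rw [he0]
        exact Submodule.zero_mem _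
      · obtain ⟨l, hl, -, h2⟩ := hinv β hβ1 e he he0
        have h4 : NK T.H W l ≤ Submodule.span T.K (Set.range fun x => T.cls (f x)) := by
          refine Submodule.span_le.2 ?_
          rintro _ ⟨D, hD, rfl⟩
          have h5 : T.Codim c D := by
            rw [hl]
            exact divProd_mem hD
          obtain ⟨x, hx⟩ := (hfr D).1 h5
          refine Submodule.subset_span ⟨x, ?_⟩
          change T.H.cl (f x) = _
          rw [hx]
        obtain ⟨m, a, y, hy⟩ : ∃ (m : ℕ) (a : Fin m → T.K) (y : Fin m → E.M X
            (2 * T.dim W - 2 * c) (T.dim W - c)), β e 0 = ∑ k, a k • T.cls (f (y k)) := by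
          obtain ⟨m, a, y, hy⟩ := Submodule.mem_span_set'.1 (h4 h2)
          choose y' hy' using fun k => (y k).2
          refine ⟨m, a, y', ?_⟩
          rw [← hy]
          exact Finset.sum_congr rfl fun k _ => by rw [← hy' k]
        have h5 : e = ∑ k, ι (a k) • E.reg X _ _ (y k) := by
          apply hβ1.inj
          funext i
          rw [hβsum, hconst β hβ1 e he i, hy]
          exact Finset.sum_congr rfl fun k _ => by rw [hreg]
        rw [h5]
        exact Submodule.sum_mem _ fun k _ => Submodule.smul_mem _ _
          (Submodule.subset_span ⟨_, rfl⟩)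
    · induction he using Submodule.span_induction with
      | mem e he =>
        obtain ⟨x, rfl⟩ := he
        exact hE.frob_reg X _ _ x
      | zero => exact hfr0 _ _
      | add x y _ _ hx hy =>
        have h2 := (hE.lin X (2 * T.dim W - 2 * c) (T.dim W - c)).map_apply
        rw [← h2, map_add, h2, h2, hx, hy]
      | smul a x _ hx =>
        have h2 := (hE.lin X (2 * T.dim W - 2 * c) (T.dim W - c)).map_apply
        rw [← h2, map_smul, h2, hx]
    · -- independence
      by_cases hcr : ∃ l : ℕ, c = l ∧ l ≤ T.dim W
      · obtain ⟨l, rfl, hl⟩ := hcr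
        obtain ⟨deg, hdeg⟩ := exists_deg hS W W
        obtain ⟨m, D, E', hD, hE', hDE, hspan⟩ := exists_dual_one hS hπ hQ b α hb h1 W hl
        have hx' : LinearIndependent ℚ fun k => f (x k) :=
          hx.map' f.toRatLinearMap (LinearMap.ker_eq_bot.2 hf)
        have hfx : ∀ k, T.Codim (l : ℤ) (f (x k)) := fun k => (hfr _).2 ⟨_, rfl⟩
        -- the class of a cycle of codimension `l` is determined by the intersection numbers
        let co : T.C.A W →ₗ[ℚ] (Fin m → ℚ) :=
          { toFun := fun w a => deg (E' a * w)
            map_add' := by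
              intro v w
              funext a
              simp only [mul_add, map_add, Pi.add_apply]
            map_smul' := by
              intro t w
              funext a
              simp only [mul_smul_comm, map_smul, Pi.smul_apply, RingHom.id_apply] }
        have hone : (1 : T.C.A W) ≠ 0 := by
          intro h0
          have := hS.nontrivial W
          have h2 := congrArg (T.H.cl (X := W)) h0
          rw [map_one, map_zero] at h2
          exact one_ne_zero h2
        have hDg : ∀ t, D t ∈ T.C.gr W l := fun t => divProd_mem (hD t)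
        have hmem : ∀ t, ∀ y ∈ T.C.gr W l, E' t * y ∈ T.C.gr W (T.dim W) := by
          intro t y hy
          have h2 := T.C.mul_mem (hE' t) hy
          rwa [show ((T.dim W - l : ℕ) : ℤ) + l = T.dim W by omega] at h2
        have hdD : ∀ t u, deg (E' u * D t) = if t = u then 1 else 0 := by
          intro t u
          have h2 := hDE t u
          rw [chow_mul_comm (D t), hdeg _ (hmem u _ (hDg t))] at h2
          by_cases htu : t = u
          · rw [if_pos htu] at h2 ⊢
            by_contra h4
            have h5 : (deg (E' u * D t) - 1) • (1 : T.C.A W) = 0 := by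
              rw [sub_smul, h2, one_smul, sub_self]
            rcases smul_eq_zero.1 h5 with h6 | h6
            · exact h4 (sub_eq_zero.1 h6)
            · exact hone h6
          · rw [if_neg htu] at h2 ⊢
            exact (smul_eq_zero.1 h2).resolve_right hone
        -- the classes
        have hpairK : ∀ (t : Fin m) (y : T.C.A W), T.C.Deg l y → T.H.cl (E' t * y) = 0 →
            deg (E' t * y) = 0 := by
          intro t y hy h0
          have h2 := hdeg _ (hmem t y hy)
          have h3 := congrArg (T.H.cl (X := W)) h2
          rw [T.H.cl_push, T.H.cl_pull, h0, map_zero, map_zero, cl_smul, map_one] at h3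
          have := hS.nontrivial W
          have h5 := (smul_eq_zero.1 h3.symm).resolve_right one_ne_zero
          exact_mod_cast h5
        have hexp : ∀ y : T.C.A W, T.C.Deg l y → y = ∑ t, co y t • D t := by
          intro y hy
          set z := y - ∑ t, co y t • D t with hz
          have hzg : T.C.Deg l z := Submodule.sub_mem _ hy
            (Submodule.sum_mem _ fun t _ => Submodule.smul_mem _ _ (hDg t))
          have hzc : ∀ u, deg (E' u * z) = 0 := by
            intro u
            rw [hz, mul_sub, map_sub, Finset.mul_sum, map_sum]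
            have h2 : ∀ t, deg (E' u * co y t • D t) = if t = u then co y t else 0 := by
              intro t
              rw [mul_smul_comm, map_smul, hdD, smul_eq_mul]
              by_cases htu : t = u
              · rw [if_pos htu, if_pos htu, mul_one]
              · rw [if_neg htu, if_neg htu, mul_zero]
            rw [Finset.sum_congr rfl fun t _ => h2 t, Finset.sum_ite_eq' Finset.univ u,
              if_pos (Finset.mem_univ u)]
            exact sub_self _
          have hzN : T.H.cl z ∈ NK T.H W l := by
            by_cases h0 : T.H.cl z = 0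
            · rw [h0]
              exact Submodule.zero_mem _
            · have h2 : T.H.pull π (T.H.cl z) = (Q : T.K) ^ (l : ℤ) • T.H.cl z := by
                rw [← T.H.cl_pull, show T.C.pull π z = (Q : ℚ) ^ l • z from hπ.chow l z hzg,
                  cl_smul, zpow_natCast]
                congr 1
                push_cast
                rfl
              obtain ⟨l', h3, h4⟩ := hNK _ h2 h0
              obtain rfl : l' = l := by exact_mod_cast h3.symm
              exact h4
          obtain ⟨a, ha⟩ := (Submodule.mem_span_range_iff_exists_fun T.K).1 (hspan hzN)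
          have ha0 : ∀ u, a u = 0 := by
            intro u
            -- multiply by `E' u` and take the degree
            have h2 : T.H.push (snd W W) (T.H.pull (fst W W) (T.H.cl (E' u) * T.H.cl z)) =
                a u • 1 := by
              rw [← ha, Finset.mul_sum, map_sum, map_sum, Finset.sum_eq_single u]
              · have h3 := congrArg (T.H.cl (X := W)) (hDE u u)
                rw [if_pos rfl, T.H.cl_push, T.H.cl_pull, map_one, chow_mul_comm (D u),
                  map_mul] at h3
                rw [mul_smul_comm, map_smul, map_smul, h3]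
              · intro t _ htu
                have h3 := congrArg (T.H.cl (X := W)) (hDE t u)
                rw [if_neg htu, T.H.cl_push, T.H.cl_pull, map_zero, chow_mul_comm (D t),
                  map_mul] at h3
                rw [mul_smul_comm, map_smul, map_smul, h3, smul_zero]
              · intro h
                exact absurd (Finset.mem_univ u) h
            have h3 := congrArg (T.H.cl (X := W)) (hdeg _ (hmem u z hzg))
            rw [T.H.cl_push, T.H.cl_pull, map_mul, h2, hzc u, zero_smul, map_zero] at h3
            have := hS.nontrivial W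
            exact (smul_eq_zero.1 h3).resolve_right one_ne_zero
          have h2 : T.H.cl z = 0 := by
            rw [← ha]
            exact Finset.sum_eq_zero fun t _ => by rw [ha0 t, zero_smul]
          exact sub_eq_zero.1 (hRat l z hzg h2)
        have h9 : LinearIndependent ℚ fun k => co (f (x k)) := by
          rw [Fintype.linearIndependent_iff] at hx' ⊢
          intro t ht k
          refine hx' t ?_ k
          have hy : T.C.Deg l (∑ k, t k • f (x k)) :=
            Submodule.sum_mem _ fun k _ => Submodule.smul_mem _ _ (hfx k)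
          rw [hexp _ hy, map_sum]
          refine Finset.sum_eq_zero fun u _ => ?_
          have h3 := congrFun ht u
          rw [Finset.sum_apply, Pi.zero_apply] at h3
          rw [Finset.sum_apply]
          have h4 : ∀ k, co (t k • f (x k)) u = (t k • co (f (x k))) u := by
            intro k
            rw [map_smul]
          rw [Finset.sum_congr rfl fun k _ => h4 k, h3, zero_smul]
        have h10 : LinearIndependent T.K fun k => fun a => ((co (f (x k)) a : ℚ) : T.K) :=
          (linearIndependent_algebraMap_comp_iff (R := ℚ) (S := T.K)).2 h9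
        have h11 : ∀ k, T.H.cl (f (x k)) = ∑ a, ((co (f (x k)) a : ℚ) : T.K) • T.H.cl (D a) := by
          intro k
          conv_lhs => rw [hexp (f (x k)) (hfx k)]
          rw [map_sum]
          exact Finset.sum_congr rfl fun a _ => cl_smul _ _
        have hindD : ∀ a : Fin m → T.K, ∑ t, a t • T.H.cl (D t) = 0 → ∀ u, a u = 0 := by
          intro a ha u
          have h2 : T.H.push (snd W W) (T.H.pull (fst W W) (T.H.cl (E' u) *
              ∑ t, a t • T.H.cl (D t))) = a u • 1 := by
            rw [Finset.mul_sum, map_sum, map_sum, Finset.sum_eq_single u]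
            · have h3 := congrArg (T.H.cl (X := W)) (hDE u u)
              rw [if_pos rfl, T.H.cl_push, T.H.cl_pull, map_one, chow_mul_comm (D u),
                map_mul] at h3
              rw [mul_smul_comm, map_smul, map_smul, h3]
            · intro t _ htu
              have h3 := congrArg (T.H.cl (X := W)) (hDE t u)
              rw [if_neg htu, T.H.cl_push, T.H.cl_pull, map_zero, chow_mul_comm (D t),
                map_mul] at h3
              rw [mul_smul_comm, map_smul, map_smul, h3, smul_zero]
            · intro h
              exact absurd (Finset.mem_univ u) h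
          rw [ha, mul_zero, map_zero, map_zero] at h2
          have := hS.nontrivial W
          exact (smul_eq_zero.1 h2.symm).resolve_right one_ne_zero
        rw [Fintype.linearIndependent_iff] at h10 ⊢
        intro t ht k
        have h16 : ∀ k, ι.symm (t k) = 0 := by
          refine h10 (fun k => ι.symm (t k)) ?_
          have h12 : ∑ k, ι.symm (t k) • T.H.cl (f (x k)) = 0 := by
            have h13 := hβsum s (fun k => ι.symm (t k)) (fun k => E.reg X _ _ (x k)) 0
            simp only [RingEquiv.apply_symm_apply] at h13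
            rw [ht, hβ0] at h13
            rw [h13]
            exact Finset.sum_congr rfl fun k _ => by rw [hreg]
          have h13 : ∑ a, (∑ k, ι.symm (t k) * ((co (f (x k)) a : ℚ) : T.K)) • T.H.cl (D a) = 0 := by
            rw [← h12]
            have h14 : ∀ k, ι.symm (t k) • T.H.cl (f (x k)) =
                ∑ a, (ι.symm (t k) * ((co (f (x k)) a : ℚ) : T.K)) • T.H.cl (D a) := by
              intro k
              rw [h11, Finset.smul_sum]
              exact Finset.sum_congr rfl fun a _ => smul_smul _ _ _
            rw [Finset.sum_congr rfl fun k _ => h14 k, Finset.sum_comm]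
            exact Finset.sum_congr rfl fun a _ => Finset.sum_smul
          have h15 := hindD _ h13
          funext a
          rw [Finset.sum_apply, Pi.zero_apply]
          exact h15 a
        have h17 := congrArg ι (h16 k)
        rwa [RingEquiv.apply_symm_apply, map_zero] at h17
      · have h0 : ∀ y : E.M X (2 * T.dim W - 2 * c) (T.dim W - c), y = 0 := by
          intro y
          apply hf
          rw [map_zero]
          have h2 : f y ∈ T.C.gr W c := (hfr _).2 ⟨y, rfl⟩
          rcases lt_or_ge c 0 with h3 | h3
          · rw [T.C.gr_neg _ _ h3] at h2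
            exact (Submodule.mem_bot _).1 h2
          · obtain ⟨l, rfl⟩ := Int.eq_ofNat_of_zero_le h3
            have h4 : ¬ l ≤ T.dim W := fun h => hcr ⟨l, rfl, h⟩
            rw [hS.chow_top _ _ (by push Not at h4; exact_mod_cast h4)] at h2
            exact (Submodule.mem_bot _).1 h2
        have hs : IsEmpty (Fin s) := ⟨fun k => hx.ne_zero k (h0 _)⟩
        exact linearIndependent_empty_type
  · -- the vanishing groups
    have hM0 : ∀ x : E.M X (2 * T.dim W - n) (T.dim W - c), x = 0 := by
      intro x
      obtain ⟨act, hact⟩ := hX.motivic n c hn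
      let φ : T.CH (T.prod W W) →ₗ[ℚ] E.M X (2 * T.dim W - n) (T.dim W - c) →ₗ[ℚ]
          E.M X (2 * T.dim W - n) (T.dim W - c) :=
        (AddMonoidHom.mk' (fun Γ => (AddMonoidHom.mk' (act Γ) (hact.add_right Γ)).toRatLinearMap)
          (fun Γ Δ => LinearMap.ext fun x => hact.add_left Γ Δ x)).toRatLinearMap
      exact op_trivial hS hπ hQ hnil b α hb hα h1 φ (fun Γ Δ h2 h3 x => hact.comp Γ Δ h2 h3 x)
        (fun x => hact.diag x) c (fun x => hact.frob x) (fun y z x => hact.prod y z x) x
    have hE0 : ∀ e : E.E X (2 * T.dim W - n) (T.dim W - c), E.frob X _ _ e = e → e = 0 := by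
      intro e he
      by_contra he0
      obtain ⟨β, hβ⟩ := hX.coh n c
      obtain ⟨l, -, h2, -⟩ := hinv β hβ e he he0
      exact hn h2
    refine ⟨fun e => ⟨fun he => ?_, fun he => ?_⟩, fun s x hx => ?_, hss⟩
    · rw [hE0 e he]
      exact Submodule.zero_mem _
    · have h2 : Set.range (E.reg X (2 * T.dim W - n) (T.dim W - c)) ⊆ {0} := by
        rintro _ ⟨x, rfl⟩
        rw [hM0 x, hreg0]
        exact rfl
      have h3 : e = 0 := by
        have := Submodule.span_mono h2 he
        simpa using this
      rw [h3, hfr0]
    · have hs : IsEmpty (Fin s) := ⟨fun k => hx.ne_zero k (hM0 _)⟩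
      exact linearIndependent_empty_type

end Pool.Agent.K6.H99.EH
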